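import Pool.Agent.Helper86.Mems.Main

/-!
# The extremal solution is regular in dimension two

For every nonlinearity `f` of type (S) and every bounded open set `Ω ⊂ ℝ²` the extremal solution of
`-Δ u = λ f(u)` in `Ω`, `u = 0` on `∂Ω`, is a classical solution.
-/

set_option autoImplicit false

open Filter Topology MeasureTheory Set InnerProductSpace Laplacian
open scoped ContDiff

namespace Pool.Agent.Results.MP_32f00d_an.CriticalDimension

open Pool.Agent.Helper86.Mems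

/-- Nonlinearities of type (S): smooth, increasing and convex on `[0,1)`, `f 0 = 1`,
`f t → +∞` as `t ↗ 1`. -/
structure TypeS (f : ℝ → ℝ) : Prop where
  smooth : ContDiffOn ℝ ∞ f (Ico 0 1)
  increasing : MonotoneOn f (Ico 0 1)
  convex : ConvexOn ℝ (Ico 0 1) f
  zero : f 0 = 1
  blowup : Tendsto f (𝓝[<] 1) atTop

/-- Classical solutions of `(P_λ)`: `-Δ u = λ f(u)` in `Ω`, `u = 0` on `∂Ω`, with values in
`[0,1)`, of class `C²` in `Ω` and continuous on the closure of `Ω`. (`Δ` is Mathlib's Laplacian.) -/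
structure IsSolution {n : ℕ} (Ω : Set (EuclideanSpace ℝ (Fin n))) (f : ℝ → ℝ) (lam : ℝ)
    (u : EuclideanSpace ℝ (Fin n) → ℝ) : Prop where
  contDiffOn : ContDiffOn ℝ 2 u Ω
  continuousOn : ContinuousOn u (closure Ω)
  boundary : ∀ x ∈ frontier Ω, u x = 0
  range : ∀ x ∈ Ω, 0 ≤ u x ∧ u x < 1
  equation : ∀ x ∈ Ω, -(Δ u) x = lam * f (u x)

/-- The minimal solution of `(P_λ)`. -/
structure IsMinimalSolution {n : ℕ} (Ω : Set (EuclideanSpace ℝ (Fin n))) (f : ℝ → ℝ) (lam : ℝ)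
    (u : EuclideanSpace ℝ (Fin n) → ℝ) : Prop extends IsSolution Ω f lam u where
  minimal : ∀ v, IsSolution Ω f lam v → ∀ x ∈ Ω, u x ≤ v x

/-- `lamS` is the extremal parameter and `uS` the extremal solution of `(P_λ)`: for `0 < λ < lamS`
there is a minimal solution `u λ`, nondecreasing in `λ`, there is no solution for `λ > lamS`, and
`uS` is the pointwise limit of `u λ` as `λ ↗ lamS`. -/
structure IsExtremalSolution {n : ℕ} (Ω : Set (EuclideanSpace ℝ (Fin n))) (f : ℝ → ℝ) (lamS : ℝ)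
    (uS : EuclideanSpace ℝ (Fin n) → ℝ) : Prop where
  pos : 0 < lamS
  no_solution : ∀ lam, lamS < lam → ∀ v, ¬ IsSolution Ω f lam v
  branch : ∃ u : ℝ → EuclideanSpace ℝ (Fin n) → ℝ,
    (∀ lam ∈ Ioo 0 lamS, IsMinimalSolution Ω f lam (u lam)) ∧
    (∀ x ∈ Ω, MonotoneOn (fun lam => u lam x) (Ioo 0 lamS)) ∧
    (∀ x ∈ closure Ω, Tendsto (fun lam => u lam x) (𝓝[<] lamS) (𝓝 (uS x)))

/-! ### from type (S) to the hypotheses used in the helper files -/

lemma TypeS.nonlin {f : ℝ → ℝ} (h : TypeS f) : Nonlin f (derivWithin f (Ico 0 1)) := by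
  have hu : UniqueDiffOn ℝ (Ico (0 : ℝ) 1) := uniqueDiffOn_Ico 0 1
  have hd : DifferentiableOn ℝ f (Ico 0 1) := h.smooth.differentiableOn (by simp)
  have hc' : ContinuousOn (derivWithin f (Ico 0 1)) (Ico 0 1) :=
    h.smooth.continuousOn_derivWithin hu (by simp)
  have hderiv : ∀ t ∈ Ioo (0 : ℝ) 1, HasDerivAt f (derivWithin f (Ico 0 1) t) t := by
    intro t ht
    have hn : Ico (0 : ℝ) 1 ∈ 𝓝 t := mem_of_superset (isOpen_Ioo.mem_nhds ht) Ioo_subset_Ico_self
    exact (hd t ⟨ht.1.le, ht.2⟩).hasDerivWithinAt.hasDerivAt hn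
  refine ⟨hderiv, h.smooth.continuousOn, hc', h.increasing, ?_, ?_, h.zero, h.blowup⟩
  · exact h.convex.monotoneOn_derivWithin hd
  · intro t ht
    exact h.increasing.derivWithin_nonneg

/-! ### transfer between `ℝ²` and the complex plane -/

/-- the plane. -/
abbrev E2 : Type := EuclideanSpace ℝ (Fin 2)

/-- the standard isometry. -/
noncomputable def φ : ℂ ≃ₗᵢ[ℝ] E2 := Complex.orthonormalBasisOneI.repr

lemma φ_one : φ 1 = EuclideanSpace.basisFun (Fin 2) ℝ 0 := by
  have h := Complex.orthonormalBasisOneI.repr_self 0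
  have e : Complex.orthonormalBasisOneI 0 = (1 : ℂ) := by simp
  rw [e] at h
  rw [φ, h]; simp

lemma φ_I : φ Complex.I = EuclideanSpace.basisFun (Fin 2) ℝ 1 := by
  have h := Complex.orthonormalBasisOneI.repr_self 1
  have e : Complex.orthonormalBasisOneI 1 = Complex.I := by simp
  rw [e] at h
  rw [φ, h]; simp

lemma differentiableAt_fderiv' {u : E2 → ℝ} {x : E2} (h : ContDiffAt ℝ 2 u x) :
    DifferentiableAt ℝ (fderiv ℝ u) x :=
  (h.fderiv_right (m := 1) (by norm_num)).differentiableAt (by norm_num)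

lemma iterated_eq {u : E2 → ℝ} {x : E2} (h : ContDiffAt ℝ 2 u x) (v : E2) :
    iteratedFDeriv ℝ 2 u x ![v, v] = fderiv ℝ (fun y => fderiv ℝ u y v) x v := by
  rw [iteratedFDeriv_two_apply, fderiv_clm_apply (differentiableAt_fderiv' h)
    (differentiableAt_const v)]
  simp

lemma dd_comp_φ (u : E2 → ℝ) (v z : ℂ) :
    dd (fun z => u (φ z)) v z = fderiv ℝ (fun y => fderiv ℝ u y (φ v)) (φ z) (φ v) := by
  have h1 : ∀ (w : E2 → ℝ) (y : ℂ), fderiv ℝ (fun z => w (φ z)) y =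
      (fderiv ℝ w (φ y)).comp (φ.toContinuousLinearEquiv : ℂ →L[ℝ] E2) := by
    intro w y
    exact φ.toContinuousLinearEquiv.comp_right_fderiv (f := w) (x := y)
  have h2 : (fun y => fderiv ℝ (fun z => u (φ z)) y v) = fun y =>
      (fun x => fderiv ℝ u x (φ v)) (φ y) := by
    ext y; rw [h1]; rfl
  unfold dd
  rw [h2, h1 (fun x => fderiv ℝ u x (φ v)) z]
  rfl

lemma lap_comp_φ {u : E2 → ℝ} {z : ℂ} (h : ContDiffAt ℝ 2 u (φ z)) :
    lap (fun z => u (φ z)) z = (Δ u) (φ z) := by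
  rw [laplacian_eq_iteratedFDeriv_orthonormalBasis u (EuclideanSpace.basisFun (Fin 2) ℝ)]
  simp only [Fin.sum_univ_two]
  rw [iterated_eq h, iterated_eq h, ← φ_one, ← φ_I, ← dd_comp_φ, ← dd_comp_φ]
  rfl

/-- extension by zero, read on the complex plane. -/
noncomputable def ext0 (Ω : Set E2) (u : E2 → ℝ) (z : ℂ) : ℝ := Ω.indicator u (φ z)

lemma ext0_mem {Ω : Set E2} {z : ℂ} (hz : φ z ∈ Ω) (u : E2 → ℝ) : ext0 Ω u z = u (φ z) :=
  indicator_of_mem hz u

lemma ext0_notMem {Ω : Set E2} {z : ℂ} (hz : φ z ∉ Ω) (u : E2 → ℝ) : ext0 Ω u z = 0 :=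
  indicator_of_notMem hz u

section transfer

variable {Ω : Set E2} {f : ℝ → ℝ} {lam : ℝ} {u : E2 → ℝ}

lemma not_mem_of_frontier (hΩ : IsOpen Ω) {x : E2} (hx : x ∈ closure Ω) (hx' : x ∉ Ω) :
    x ∈ frontier Ω := by
  rw [hΩ.frontier_eq]; exact ⟨hx, hx'⟩

lemma indicator_continuous (hΩ : IsOpen Ω) (hc : ContinuousOn u (closure Ω))
    (hb : ∀ x ∈ frontier Ω, u x = 0) : Continuous (Ω.indicator u) := by
  have h1 : ContinuousOn (Ω.indicator u) (closure Ω) := by
    refine hc.congr fun x hx => ?_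
    by_cases hxΩ : x ∈ Ω
    · exact indicator_of_mem hxΩ u
    · rw [indicator_of_notMem hxΩ, hb x (not_mem_of_frontier hΩ hx hxΩ)]
  have h2 : ContinuousOn (Ω.indicator u) Ωᶜ :=
    continuousOn_const.congr fun x hx => indicator_of_notMem hx u
  have h3 := h1.union_of_isClosed h2 isClosed_closure hΩ.isClosed_compl
  have h4 : closure Ω ∪ Ωᶜ = univ := by
    refine eq_univ_of_forall fun x => ?_
    by_cases hx : x ∈ Ω
    · exact Or.inl (subset_closure hx)
    · exact Or.inr hx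
  rw [h4] at h3
  exact continuousOn_univ.1 h3

lemma ext0_eventuallyEq (hΩ : IsOpen Ω) {z : ℂ} (hz : φ z ∈ Ω) :
    ext0 Ω u =ᶠ[𝓝 z] fun z => u (φ z) := by
  filter_upwards [(hΩ.preimage φ.continuous).mem_nhds hz] with y hy
  exact ext0_mem hy u

lemma lap_congr {v w : ℂ → ℝ} {z : ℂ} (h : v =ᶠ[𝓝 z] w) : lap v z = lap w z := by
  have h1 : fderiv ℝ v =ᶠ[𝓝 z] fderiv ℝ w := h.fderiv
  have h2 : ∀ e : ℂ, dd v e z = dd w e z := by
    intro e
    have h3 : (fun y => fderiv ℝ v y e) =ᶠ[𝓝 z] fun y => fderiv ℝ w y e := by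
      filter_upwards [h1] with y hy
      rw [hy]
    unfold dd
    rw [h3.fderiv_eq]
  unfold lap
  rw [h2, h2]

lemma IsSolution.toSol (hΩ : IsOpen Ω) (h : IsSolution Ω f lam u) :
    Sol (φ ⁻¹' Ω) f lam (ext0 Ω u) := by
  have hat : ∀ x ∈ Ω, ContDiffAt ℝ 2 u x := fun x hx => h.contDiffOn.contDiffAt (hΩ.mem_nhds hx)
  have hat' : ∀ z, φ z ∈ Ω → ContDiffAt ℝ 2 (fun z => u (φ z)) z := fun z hz =>
    (hat _ hz).comp z φ.toContinuousLinearEquiv.contDiff.contDiffAt
  refine ⟨fun z hz => ?_, ?_, ?_, ?_, ?_, ?_⟩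
  · exact ((hat' z hz).congr_of_eventuallyEq (ext0_eventuallyEq hΩ hz)).contDiffWithinAt
  · exact (indicator_continuous hΩ h.continuousOn h.boundary).comp φ.continuous
  · exact fun z hz => ext0_notMem hz u
  · intro z
    unfold ext0
    by_cases hz : φ z ∈ Ω
    · rw [indicator_of_mem hz]; exact (h.range _ hz).1
    · rw [indicator_of_notMem hz]
  · intro z
    unfold ext0
    by_cases hz : φ z ∈ Ω
    · rw [indicator_of_mem hz]; exact (h.range _ hz).2
    · rw [indicator_of_notMem hz]; exact one_pos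
  · intro z hz
    rw [lap_congr (ext0_eventuallyEq hΩ hz), lap_comp_φ (hat _ hz)]
    have h1 := h.equation _ hz
    rw [ext0_mem (Ω := Ω) hz, ← h1, neg_neg]

lemma ofSol (hΩ : IsOpen Ω) (h : Sol (φ ⁻¹' Ω) f lam (ext0 Ω u))
    (hb : ∀ x ∈ frontier Ω, u x = 0) : IsSolution Ω f lam u := by
  have hval : ∀ x ∈ Ω, ext0 Ω u (φ.symm x) = u x := fun x hx => by
    unfold ext0; rw [φ.apply_symm_apply]; exact indicator_of_mem hx u
  have hpre : ∀ x ∈ Ω, φ.symm x ∈ φ ⁻¹' Ω := fun x hx => by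
    rw [mem_preimage, φ.apply_symm_apply]; exact hx
  have hΩ' : IsOpen (φ ⁻¹' Ω) := hΩ.preimage φ.continuous
  have hat : ∀ x ∈ Ω, ContDiffAt ℝ 2 u x := by
    intro x hx
    have h1 : ContDiffAt ℝ 2 (fun x => ext0 Ω u (φ.symm x)) x :=
      (h.c2At hΩ' (hpre x hx)).comp x φ.symm.toContinuousLinearEquiv.contDiff.contDiffAt
    refine h1.congr_of_eventuallyEq ?_
    filter_upwards [hΩ.mem_nhds hx] with y hy
    exact (hval y hy).symm
  refine ⟨fun x hx => (hat x hx).contDiffWithinAt, ?_, hb, ?_, ?_⟩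
  · have h1 : Continuous fun x => ext0 Ω u (φ.symm x) := h.cont.comp φ.symm.continuous
    refine h1.continuousOn.congr fun x hx => ?_
    by_cases hxΩ : x ∈ Ω
    · exact (hval x hxΩ).symm
    · have e : ext0 Ω u (φ.symm x) = 0 := by
        unfold ext0; rw [φ.apply_symm_apply]; exact indicator_of_notMem hxΩ u
      simp only
      rw [e, hb x (not_mem_of_frontier hΩ hx hxΩ)]
  · intro x hx
    rw [← hval x hx]
    exact ⟨h.nonneg _, h.lt_one _⟩
  · intro x hx
    have h1 := h.eqn _ (hpre x hx)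
    have hx' : φ (φ.symm x) ∈ Ω := hpre x hx
    have h2 : ContDiffAt ℝ 2 u (φ (φ.symm x)) := hat _ hx'
    rw [lap_congr (ext0_eventuallyEq hΩ hx'), lap_comp_φ h2, hval x hx, φ.apply_symm_apply] at h1
    rw [h1, neg_neg]

end transfer

/-- **The extremal solution is regular in dimension two**: for every nonlinearity `f` of type (S)
and every bounded open set `Ω ⊂ ℝ²`, the extremal solution `u*` is a classical solution of
`(P_{λ*})`; in particular `sup u* < 1`. -/
theorem result {f : ℝ → ℝ} (hf : TypeS f) {Ω : Set (EuclideanSpace ℝ (Fin 2))} (hΩ : IsOpen Ω)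
    (hΩb : Bornology.IsBounded Ω) {lamS : ℝ} {uS : EuclideanSpace ℝ (Fin 2) → ℝ}
    (h : IsExtremalSolution Ω f lamS uS) :
    IsSolution Ω f lamS uS ∧ ∃ c < 1, ∀ x ∈ closure Ω, uS x ≤ c := by
  obtain ⟨hS, -, u, hu, hmono, hlim⟩ := h
  have hΩ' : IsOpen (φ ⁻¹' Ω) := hΩ.preimage φ.continuous
  have hΩb' : Bornology.IsBounded (φ ⁻¹' Ω) := by
    have : φ ⁻¹' Ω = φ.symm '' Ω := by
      ext z
      constructor
      · intro hz; exact ⟨φ z, hz, φ.symm_apply_apply z⟩
      · rintro ⟨x, hx, rfl⟩; rw [mem_preimage, φ.apply_symm_apply]; exact hx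
    rw [this]
    exact φ.symm.lipschitz.isBounded_image hΩb
  have hb : ∀ x ∈ frontier Ω, uS x = 0 := by
    intro x hx
    have h1 : Tendsto (fun lam => u lam x) (𝓝[<] lamS) (𝓝 0) := by
      refine tendsto_const_nhds.congr' ?_
      filter_upwards [Ioo_mem_nhdsLT hS] with lam hlam
      exact ((hu lam hlam).boundary x hx).symm
    exact tendsto_nhds_unique (hlim x (frontier_subset_closure hx)) h1
  have key := extremal_sol hf.nonlin hΩ' hΩb' hS (u := fun lam => ext0 Ω (u lam))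
    (uS := ext0 Ω uS) (fun lam hlam => (hu lam hlam).toIsSolution.toSol hΩ)
    (fun lam mu h0 hle hlt z => by
      by_cases hz : φ z ∈ Ω
      · have e : ∀ w : E2 → ℝ, ext0 Ω w z = w (φ z) := fun w => indicator_of_mem hz w
        rw [e, e]
        exact hmono _ hz ⟨h0, hle.trans_lt hlt⟩ ⟨h0.trans_le hle, hlt⟩ hle
      · have e : ∀ w : E2 → ℝ, ext0 Ω w z = 0 := fun w => indicator_of_notMem hz w
        rw [e, e])
    (fun z => by
      by_cases hz : φ z ∈ Ω
      · have e : ∀ w : E2 → ℝ, ext0 Ω w z = w (φ z) := fun w => indicator_of_mem hz w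
        simp only [e]
        exact hlim _ (subset_closure hz)
      · have e : ∀ w : E2 → ℝ, ext0 Ω w z = 0 := fun w => indicator_of_notMem hz w
        simp only [e]
        exact tendsto_const_nhds)
  obtain ⟨hsol, c, hc, hle⟩ := key
  refine ⟨ofSol hΩ hsol hb, max (1 - c) 0, max_lt (by linarith) one_pos, fun x hx => ?_⟩
  by_cases hxΩ : x ∈ Ω
  · have h1 := hle (φ.symm x)
    have e : ext0 Ω uS (φ.symm x) = uS x := by
      unfold ext0; rw [φ.apply_symm_apply]; exact indicator_of_mem hxΩ uS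
    rw [e] at h1
    exact h1.trans (le_max_left _ _)
  · rw [hb x (not_mem_of_frontier hΩ hx hxΩ)]
    exact le_max_right _ _

end Pool.Agent.Results.MP_32f00d_an.CriticalDimension
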